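import Pool.Agent.Helper14.W5.StC

/-!
# Project W5, module UBof: the upper bound UB for level 5^n
-/

set_option autoImplicit false

open Pool.Agent.Helper14.CV (Homog EqC act Tl StFar StFex)
open Pool.Agent.Helper28.WK (SymP Tw evw Ok)
open Pool.Agent.Helper14.W5

namespace Pool.Agent.Helper62.W5

/-- Two functions `edge5` of the transported potential as a linear map. -/
private noncomputable def Lm (μ k m : ℕ) (u1 u2 v1 v2 u1' u2' v1' v2' : ℤ) :
    (ℤ → ℤ → ℂ) →ₗ[ℂ] ((Pt m → ℂ) × (Pt m → ℂ)) where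
  toFun G := (fun p : Pt m => edge5 μ u1 u2 v1 v2 (act 1 0 0 (5 ^ k) G) p.1 p.2,
    fun p : Pt m => edge5 μ u1' u2' v1' v2' (act 1 0 0 (5 ^ k) G) p.1 p.2)
  map_add' G H := by
    refine Prod.ext ?_ ?_
    · funext p
      simp only [edge5, act, Pi.add_apply, Prod.fst_add]
      ring
    · funext p
      simp only [edge5, act, Pi.add_apply, Prod.snd_add]
      ring
  map_smul' c G := by
    refine Prod.ext ?_ ?_
    · funext p
      simp only [edge5, act, Pi.smul_apply, smul_eq_mul, RingHom.id_apply, Prod.smul_fst]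
      ring
    · funext p
      simp only [edge5, act, Pi.smul_apply, smul_eq_mul, RingHom.id_apply, Prod.smul_snd]
      ring

private theorem build (n D : ℕ) {W : Type} [AddCommGroup W] [Module ℂ W] [Module.Finite ℂ W]
    (hW : Module.finrank ℂ W ≤ D) (L : NSP 5 n →ₗ[ℂ] W)
    (hinj : ∀ G : NSP 5 n, L G = 0 → EqC (G : ℤ → ℤ → ℂ) 0) :
    ∃ Θ : NSP 5 n →ₗ[ℂ] (Fin D → ℂ), ∀ G : NSP 5 n, Θ G = 0 → EqC (G : ℤ → ℤ → ℂ) 0 := by
  have h0 : Module.finrank ℂ W ≤ Module.finrank ℂ (Fin D → ℂ) := by simpa using hW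
  obtain ⟨e, he⟩ := finrank_le_iff_exists_linearMap.1 h0
  refine ⟨e.comp L, fun G hG => hinj G ?_⟩
  apply he
  rw [map_zero]
  exact hG

theorem hUBof : S5UBof := by
  intro hBal hE1 hO1 hDimE hDimO n hn
  rcases Nat.even_or_odd' n with ⟨k, hk | hk⟩
  · -- even exponent
    subst hk
    have hk2 : 2 ≤ k := by omega
    have key : ∀ G ∈ NSP 5 (2 * k), Lm 1 k (k - 1) 1 0 1 1 1 1 2 1 G ∈ subE (k - 1) ∧
        (Lm 1 k (k - 1) 1 0 1 1 1 1 2 1 G = 0 → EqC G 0) := by
      intro G hG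
      have hN : NewSymP 5 (2 * k) G := hG
      have hB := (hBal k G (by omega)).1 hN
      obtain ⟨a1, a2⟩ := hE1 k _ hk2 hB
      refine ⟨a1, fun h0 => ?_⟩
      have h1 := congrArg Prod.fst h0
      have h2 := congrArg Prod.snd h0
      have h3 := a2 (fun x y => ⟨congrFun h1 (x, y), congrFun h2 (x, y)⟩)
      exact (hBal k G (by omega)).2.2 hN.1.1 h3
    have hd : dd5 (2 * k) = 20 * 25 ^ (k - 2) - 2 * 5 ^ (k - 2) := by
      have h2k : 2 * k / 2 = k := by omega
      unfold dd5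
      rw [if_neg (by omega), if_neg (by omega), h2k]
    rw [hd]
    let L1 : NSP 5 (2 * k) →ₗ[ℂ] subE (k - 1) :=
      ((Lm 1 k (k - 1) 1 0 1 1 1 1 2 1).comp (NSP 5 (2 * k)).subtype).codRestrict (subE (k - 1))
        (fun G => (key G G.2).1)
    refine build (2 * k) _ ?_ L1 (fun G hG => ?_)
    · rw [hDimE (k - 1) (by omega)]
      have e : k - 1 - 1 = k - 2 := by omega
      rw [e]
    · exact (key G G.2).2 (congrArg Subtype.val hG)
  · -- odd exponent
    subst hk
    have hk1 : 1 ≤ k := by omega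
    have key : ∀ G ∈ NSP 5 (2 * k + 1), Lm 0 k k 1 0 0 1 1 0 1 2 G ∈ subO k ∧
        (Lm 0 k k 1 0 0 1 1 0 1 2 G = 0 → EqC G 0) := by
      intro G hG
      have hN : NewSymP 5 (2 * k + 1) G := hG
      have hB := (hBal k G hk1).2.1 hN
      obtain ⟨a1, a2⟩ := hO1 k _ hk1 hB
      refine ⟨a1, fun h0 => ?_⟩
      have h1 := congrArg Prod.fst h0
      have h2 := congrArg Prod.snd h0
      have h3 := a2 (fun x y => ⟨congrFun h1 (x, y), congrFun h2 (x, y)⟩)
      exact (hBal k G hk1).2.2 hN.1.1 h3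
    have hd : dd5 (2 * k + 1) = 4 * 25 ^ (k - 1) + 2 * 5 ^ (k - 1) := by
      have h2k : (2 * k + 1) / 2 = k := by omega
      unfold dd5
      rw [if_neg (by omega), if_pos (by omega), h2k]
    rw [hd]
    let L1 : NSP 5 (2 * k + 1) →ₗ[ℂ] subO k :=
      ((Lm 0 k k 1 0 0 1 1 0 1 2).comp (NSP 5 (2 * k + 1)).subtype).codRestrict (subO k)
        (fun G => (key G G.2).1)
    refine build (2 * k + 1) _ ?_ L1 (fun G hG => ?_)
    · rw [hDimO k hk1]
    · exact (key G G.2).2 (congrArg Subtype.val hG)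

end Pool.Agent.Helper62.W5
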